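import Pool.Agent.N946.HN.Spx1

/-! Project HN, part SPX: transcendence degrees of the residue field. -/

set_option autoImplicit false
set_option linter.unusedSectionVars false

open Cardinal

namespace Pool.Agent.N946.HN

section

variable {Ω E : Type} [Field Ω] [Field E] [Algebra Ω E] (O : ValuationSubring E)

/-- independent residues have independent lifts -/
theorem indep_lift {ι : Type} (v : ι → O)
    (h : AlgebraicIndependent (Lam O Ω) (fun i => IsLocalRing.residue O (v i))) :
    AlgebraicIndependent Ω (fun i => ((v i : O) : E)) := by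
  refine (injective_iff_map_eq_zero _).2 fun R hR => ?_
  by_contra hR0
  obtain ⟨s0, hs0, hmax⟩ := Finset.exists_max_image R.support
    (fun s => (OO O Ω).valuation (R.coeff s)) (MvPolynomial.support_nonempty.2 hR0)
  have hc0 : R.coeff s0 ≠ 0 := MvPolynomial.mem_support_iff.1 hs0
  have hmem : ∀ s, R.coeff s / R.coeff s0 ∈ OO O Ω := by
    intro s
    rw [← ValuationSubring.valuation_le_one_iff, map_div₀]
    have hv0 : (OO O Ω).valuation (R.coeff s0) ≠ 0 := (map_ne_zero _).2 hc0
    rw [div_le_one₀ (zero_lt_iff.2 hv0)]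
    by_cases hs : s ∈ R.support
    · exact hmax s hs
    · rw [MvPolynomial.notMem_support_iff.1 hs, map_zero]
      exact zero_le
  let R2 : MvPolynomial ι (OO O Ω) :=
    ∑ s ∈ R.support, MvPolynomial.monomial s (⟨R.coeff s / R.coeff s0, hmem s⟩ : OO O Ω)
  have hcoef : ∀ s, MvPolynomial.coeff s R2 = ⟨R.coeff s / R.coeff s0, hmem s⟩ := by
    intro s
    classical
    simp only [R2, MvPolynomial.coeff_sum, MvPolynomial.coeff_monomial]
    rw [Finset.sum_ite_eq' R.support s]
    split_ifs with hs
    · rfl
    · apply Subtype.ext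
      show (0 : Ω) = R.coeff s / R.coeff s0
      rw [MvPolynomial.notMem_support_iff.1 hs, zero_div]
  have hmap : MvPolynomial.map (OO O Ω).subtype R2 = MvPolynomial.C (R.coeff s0)⁻¹ * R := by
    ext s
    rw [MvPolynomial.coeff_map, hcoef, MvPolynomial.coeff_C_mul]
    show R.coeff s / R.coeff s0 = _
    rw [div_eq_inv_mul]
  let ev : MvPolynomial ι (OO O Ω) →+* O := MvPolynomial.eval₂Hom (jO O) v
  have ev1 : ∀ P, ((ev P : O) : E) =
      MvPolynomial.aeval (fun i => ((v i : O) : E)) (MvPolynomial.map (OO O Ω).subtype P) := by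
    intro P
    have : (O.subtype).comp ev = (MvPolynomial.aeval (R := Ω)
        (fun i => ((v i : O) : E))).toRingHom.comp (MvPolynomial.map (OO O Ω).subtype) := by
      refine MvPolynomial.ringHom_ext (fun z => ?_) (fun i => ?_)
      · simp only [ev, RingHom.comp_apply, MvPolynomial.eval₂Hom_C, AlgHom.toRingHom_eq_coe,
          RingHom.coe_coe, MvPolynomial.map_C, MvPolynomial.algHom_C]
        rfl
      · simp only [ev, RingHom.comp_apply, MvPolynomial.eval₂Hom_X', AlgHom.toRingHom_eq_coe,
          RingHom.coe_coe, MvPolynomial.map_X, MvPolynomial.aeval_X]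
        rfl
    exact congrFun (congrArg DFunLike.coe this) P
  have ev2 : ∀ P, IsLocalRing.residue O (ev P) =
      MvPolynomial.aeval (fun i => IsLocalRing.residue O (v i)) (MvPolynomial.map (pi O) P) := by
    intro P
    have : (IsLocalRing.residue O).comp ev = (MvPolynomial.aeval (R := Lam O Ω)
        (fun i => IsLocalRing.residue O (v i))).toRingHom.comp (MvPolynomial.map (pi O)) := by
      refine MvPolynomial.ringHom_ext (fun z => ?_) (fun i => ?_)
      · simp only [ev, RingHom.comp_apply, MvPolynomial.eval₂Hom_C, AlgHom.toRingHom_eq_coe,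
          RingHom.coe_coe, MvPolynomial.map_C, MvPolynomial.algHom_C]
        rfl
      · simp only [ev, RingHom.comp_apply, MvPolynomial.eval₂Hom_X', AlgHom.toRingHom_eq_coe,
          RingHom.coe_coe, MvPolynomial.map_X, MvPolynomial.aeval_X]
    exact congrFun (congrArg DFunLike.coe this) P
  have h0 : ev R2 = 0 := by
    apply Subtype.ext
    rw [ev1, hmap, map_mul]
    have hR' : MvPolynomial.aeval (fun i => ((v i : O) : E)) R = 0 := hR
    rw [hR', mul_zero]
    rfl
  have h1 := ev2 R2
  rw [h0, map_zero] at h1
  have h2 := (injective_iff_map_eq_zero _).1 h _ h1.symm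
  have h3 := congrArg (MvPolynomial.coeff s0) h2
  rw [MvPolynomial.coeff_map, hcoef, MvPolynomial.coeff_zero] at h3
  have h4 : (⟨R.coeff s0 / R.coeff s0, hmem s0⟩ : OO O Ω) = 1 := Subtype.ext (div_self hc0)
  rw [h4, map_one] at h3
  exact one_ne_zero h3

end

/-- generators of an intermediate field, as elements -/
theorem adjoin_top {F M ι : Type} [Field F] [Field M] [Algebra F M] (y : ι → M)
    (E' : IntermediateField F M) (hE : E' = IntermediateField.adjoin F (Set.range y))
    (y' : ι → E') (hy : ∀ i, ((y' i : E') : M) = y i) :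
    IntermediateField.adjoin F (Set.range y') = ⊤ := by
  apply IntermediateField.map_injective E'.val
  rw [IntermediateField.adjoin_map, ← Set.range_comp]
  have : (E'.val ∘ y') = y := funext hy
  rw [this, ← hE, ← AlgHom.fieldRange_eq_map, IntermediateField.fieldRange_val]

/-- algebraicity over the algebra of the generators -/
theorem alg_of_top {F M ι : Type} [Field F] [Field M] [Algebra F M] (y : ι → M)
    (h : IntermediateField.adjoin F (Set.range y) = ⊤) :
    Algebra.IsAlgebraic (Algebra.adjoin F (Set.range y)) M := by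
  rw [← IntermediateField.isAlgebraic_adjoin_iff_top, h]
  refine ⟨fun e => ?_⟩
  exact isAlgebraic_algebraMap (⟨e, trivial⟩ : (⊤ : IntermediateField F M))

/-- transcendence degrees and relations -/
theorem trdeg_le_of_rel {F K M ι : Type} [Field F] [Field K] [Algebra F K] [Field M] [Algebra F M]
    (x : ι → K) (y : ι → M) (hK : IntermediateField.adjoin F (Set.range x) = ⊤)
    (h : ∀ P : MvPolynomial ι F, MvPolynomial.aeval y P = 0 → MvPolynomial.aeval x P = 0) :
    Algebra.trdeg F K ≤ Algebra.trdeg F M := by
  have := alg_of_top x hK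
  obtain ⟨t, hts, ht⟩ := exists_isTranscendenceBasis_subset (R := F) (Set.range x)
  choose idx hidx using fun b : t => hts b.2
  have hind : AlgebraicIndependent F (fun b : t => y (idx b)) := by
    refine (injective_iff_map_eq_zero _).2 fun P hP => ?_
    have h1 : MvPolynomial.aeval y (MvPolynomial.rename idx P) = 0 := by
      rw [MvPolynomial.aeval_rename]
      exact hP
    have h2 := h _ h1
    rw [MvPolynomial.aeval_rename] at h2
    have h3 : x ∘ idx = (fun b : t => (b : K)) := funext hidx
    rw [h3] at h2
    exact (injective_iff_map_eq_zero _).1 ht.1 P h2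
  rw [← ht.cardinalMk_eq_trdeg]
  exact hind.cardinalMk_le_trdeg

section

variable {Ω E : Type} [Field Ω] [Field E] [Algebra Ω E] (O : ValuationSubring E)

/-- the transcendence degree of the residue field of the curve -/
theorem trdeg_le_one {ι : Type} (v : ι → O) (hE : Algebra.trdeg Ω E = 1)
    (E' : IntermediateField (Lam O Ω) (kk O))
    (hE' : E' = IntermediateField.adjoin (Lam O Ω)
      (Set.range fun i => IsLocalRing.residue O (v i)))
    (y : ι → E') (hy : ∀ i, ((y i : E') : kk O) = IsLocalRing.residue O (v i)) :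
    Algebra.trdeg (Lam O Ω) E' ≤ 1 := by
  have htop := adjoin_top _ E' hE' y hy
  have := alg_of_top y htop
  have hf : FaithfulSMul (Lam O Ω) E' :=
    (faithfulSMul_iff_algebraMap_injective _ _).2 (algebraMap (Lam O Ω) E').injective
  obtain ⟨t, hts, ht⟩ := exists_isTranscendenceBasis_subset (R := Lam O Ω) (Set.range y)
  rw [← ht.cardinalMk_eq_trdeg, Cardinal.mk_le_one_iff_set_subsingleton]
  intro p hp q hq
  by_contra hpq
  obtain ⟨i, rfl⟩ := hts hp
  obtain ⟨j, rfl⟩ := hts hq
  let e : Fin 2 → t := ![⟨y i, hp⟩, ⟨y j, hq⟩]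
  have he : Function.Injective e := by
    intro a b hab
    fin_cases a <;> fin_cases b
    · rfl
    · exact absurd (congrArg Subtype.val hab) hpq
    · exact absurd (congrArg Subtype.val hab).symm hpq
    · rfl
  have h1 := (ht.1.comp e he).map' (f := E'.val) Subtype.val_injective
  have h2 : AlgebraicIndependent (Lam O Ω)
      (fun a : Fin 2 => IsLocalRing.residue O ((![v i, v j] : Fin 2 → O) a)) := by
    convert h1 using 1
    funext a
    fin_cases a
    · exact (hy i).symm
    · exact (hy j).symm
  have h3 := indep_lift O _ h2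
  have h4 := h3.cardinalMk_le_trdeg
  rw [hE, mk_fin] at h4
  norm_num at h4

end

/-- cardinal arithmetic -/
theorem card_arith {a b c : Cardinal.{0}} {n : ℕ} (h1 : a + b = c) (h2 : (n : Cardinal) ≤ c)
    (h3 : ¬ (n : Cardinal) ≤ a) (h4 : b ≤ 1) : a + 1 = n ∧ b = 1 := by
  obtain ⟨a', rfl⟩ := Cardinal.lt_aleph0.1 ((not_le.1 h3).trans Cardinal.natCast_lt_aleph0)
  obtain ⟨b', rfl⟩ := Cardinal.lt_aleph0.1 (h4.trans_lt Cardinal.one_lt_aleph0)
  subst h1
  have h3' : a' < n := by exact_mod_cast not_le.1 h3
  have h4' : b' ≤ 1 := by exact_mod_cast h4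
  have h2' : n ≤ a' + b' := by exact_mod_cast h2
  constructor
  · have : a' + 1 = n := by omega
    exact_mod_cast this
  · have : b' = 1 := by omega
    exact_mod_cast this

end Pool.Agent.N946.HN
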