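import Pool.Agent.N162.HN.Stm
import Pool.Agent.N946.HN.Spx2

/-! Project HN, part SPX: existence of the specialisation. -/

set_option autoImplicit false
set_option linter.unusedSectionVars false

open Pool.Agent.N162.HN

namespace Pool.Agent.N946.HN

section

variable {Ω E : Type} [Field Ω] [Field E] [Algebra Ω E] (O : ValuationSubring E)

/-- the elements with residues in `E'` -/
def SS (E' : IntermediateField (Lam O Ω) (kk O)) : Subring E where
  carrier := {a | ∃ h : a ∈ O, IsLocalRing.residue O ⟨a, h⟩ ∈ E'}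
  mul_mem' := by
    rintro a b ⟨ha, ha'⟩ ⟨hb, hb'⟩
    exact ⟨O.mul_mem _ _ ha hb, E'.mul_mem ha' hb'⟩
  one_mem' := ⟨O.one_mem, by
    have : (⟨1, O.one_mem⟩ : O) = 1 := rfl
    rw [this, map_one]
    exact E'.one_mem⟩
  add_mem' := by
    rintro a b ⟨ha, ha'⟩ ⟨hb, hb'⟩
    exact ⟨O.add_mem _ _ ha hb, E'.add_mem ha' hb'⟩
  zero_mem' := ⟨O.zero_mem, by
    have : (⟨0, O.zero_mem⟩ : O) = 0 := rfl
    rw [this, map_zero]
    exact E'.zero_mem⟩
  neg_mem' := by
    rintro a ⟨ha, ha'⟩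
    exact ⟨O.neg_mem _ ha, E'.neg_mem ha'⟩

/-- the specialisation map -/
noncomputable def ph (E' : IntermediateField (Lam O Ω) (kk O)) : SS O E' →+* E' where
  toFun a := ⟨IsLocalRing.residue O ⟨a.1, a.2.fst⟩, a.2.snd⟩
  map_one' := rfl
  map_zero' := rfl
  map_add' _ _ := rfl
  map_mul' _ _ := rfl

theorem ph_val (E' : IntermediateField (Lam O Ω) (kk O)) (a : SS O E') (h : (a : E) ∈ O) :
    ((ph O E' a : E') : kk O) = IsLocalRing.residue O ⟨a.1, h⟩ := rfl

theorem spz (E' : IntermediateField (Lam O Ω) (kk O)) :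
    Spz (Ω := Ω) (Λ := Lam O Ω) O (SS O E') (ph O E') where
  le a ha := ha.fst
  surj := by
    intro b
    obtain ⟨a, ha⟩ := IsLocalRing.residue_surjective (R := O) (b : kk O)
    refine ⟨⟨a.1, a.2, ?_⟩, Subtype.ext ha⟩
    show IsLocalRing.residue O a ∈ E'
    rw [ha]
    exact b.2
  zero := by
    intro a
    have h1 := res_ne O (a : E) a.2.fst
    have h2 : ph O E' a = 0 ↔ IsLocalRing.residue O ⟨a.1, a.2.fst⟩ = 0 :=
      ⟨fun h => congrArg Subtype.val h, fun h => Subtype.ext h⟩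
    rw [h2, ← not_iff_not]
    rw [← Ne, h1]
    push Not
    rfl
  max := by
    intro a ha h
    refine ⟨ha, ?_⟩
    have : IsLocalRing.residue O ⟨a, ha⟩ = 0 := by
      by_contra hne
      obtain ⟨h1, h2⟩ := (res_ne O a ha).1 hne
      rcases h with h | h
      · exact h1 h
      · exact h h2
    rw [this]
    exact E'.zero_mem
  one := by
    intro ω hω
    have h : algebraMap Ω E ω ∈ SS O E' :=
      ⟨hω, E'.algebraMap_mem (pi O ⟨ω, hω⟩)⟩
    exact ⟨h, pi O ⟨ω, hω⟩, rfl⟩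
  two := by
    intro b
    obtain ⟨⟨ω, hω⟩, rfl⟩ := pi_surj O (Ω := Ω) b
    exact ⟨ω, ⟨hω, E'.algebraMap_mem (pi O ⟨ω, hω⟩)⟩, rfl⟩

end

theorem spx_ : Pool.Agent.N162.HN.StSPX := by
  intro n K Ω _ _ _ _ _ x hx0 hxtop hK hΩ hn C O hctr hvert
  have hc : ∀ z : ℂ, algebraMap Ω C.E (algebraMap ℂ Ω z) ∈ O := by
    intro z
    have := (hctr (MvPolynomial.C z)).1
    unfold Pool.Agent.N162.HN.cmp at this
    rwa [MvPolynomial.map_C, MvPolynomial.algHom_C] at this
  have hXO : ∀ j, C.X j ∈ O := by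
    intro j
    have := (hctr (MvPolynomial.X j)).1
    unfold Pool.Agent.N162.HN.cmp at this
    rwa [MvPolynomial.map_X, MvPolynomial.aeval_X] at this
  let Λ : Subfield (kk O) := Lam O Ω
  let xb : Fin (n + 2) → kk O := fun j => IsLocalRing.residue O ⟨C.X j, hXO j⟩
  let E' : IntermediateField (Lam O Ω) (kk O) := IntermediateField.adjoin (Lam O Ω) (Set.range xb)
  let iΛ : Algebra ℂ (Lam O Ω) := ((pi O).comp (cO O hc)).toAlgebra
  let iE : Algebra ℂ E' := ((algebraMap (Lam O Ω) E').comp (algebraMap ℂ (Lam O Ω))).toAlgebra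
  have iT : IsScalarTower ℂ (Lam O Ω) E' := IsScalarTower.of_algebraMap_eq (fun _ => rfl)
  have iAC : IsAlgClosed (Lam O Ω) := algClosed O
  have hXS : ∀ j, C.X j ∈ SS O E' := fun j =>
    ⟨hXO j, IntermediateField.subset_adjoin _ _ ⟨j, rfl⟩⟩
  let y : Fin (n + 2) → E' := fun j => ph O E' ⟨C.X j, hXS j⟩
  have hy : ∀ j, ((y j : E') : kk O) = IsLocalRing.residue O ⟨C.X j, hXO j⟩ := fun j => rfl
  -- relations
  let cm : MvPolynomial (Fin (n + 2)) ℂ →+* C.E :=
    (MvPolynomial.aeval (R := Ω) C.X).toRingHom.comp (MvPolynomial.map (algebraMap ℂ Ω))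
  let θ : MvPolynomial (Fin (n + 2)) ℂ →+* O := cm.codRestrict O fun P => (hctr P).1
  have hθ : ∀ P : MvPolynomial (Fin (n + 2)) ℂ,
      ((MvPolynomial.aeval y P : E') : kk O) = IsLocalRing.residue O (θ P) := by
    intro P
    have : (algebraMap E' (kk O)).comp (MvPolynomial.aeval (R := ℂ) y).toRingHom =
        (IsLocalRing.residue O).comp θ := by
      refine MvPolynomial.ringHom_ext (fun z => ?_) (fun j => ?_)
      · simp only [RingHom.comp_apply, AlgHom.toRingHom_eq_coe, RingHom.coe_coe,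
          MvPolynomial.algHom_C]
        have h1 : θ (MvPolynomial.C z) = ⟨algebraMap Ω C.E (algebraMap ℂ Ω z), hc z⟩ := by
          apply Subtype.ext
          show MvPolynomial.aeval C.X (MvPolynomial.map (algebraMap ℂ Ω) (MvPolynomial.C z)) = _
          rw [MvPolynomial.map_C, MvPolynomial.algHom_C]
        rw [h1]
        rfl
      · simp only [RingHom.comp_apply, AlgHom.toRingHom_eq_coe, RingHom.coe_coe,
          MvPolynomial.aeval_X]
        have h1 : θ (MvPolynomial.X j) = ⟨C.X j, hXO j⟩ := by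
          apply Subtype.ext
          show MvPolynomial.aeval C.X (MvPolynomial.map (algebraMap ℂ Ω) (MvPolynomial.X j)) = _
          rw [MvPolynomial.map_X, MvPolynomial.aeval_X]
        rw [h1]
        rfl
    exact congrFun (congrArg DFunLike.coe this) P
  have hrel : ∀ P : MvPolynomial (Fin (n + 2)) ℂ,
      MvPolynomial.aeval y P = 0 ↔ MvPolynomial.aeval x P = 0 := by
    intro P
    have h1 : MvPolynomial.aeval y P = 0 ↔ IsLocalRing.residue O (θ P) = 0 := by
      rw [← hθ]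
      exact ⟨fun h => by rw [h]; rfl, fun h => Subtype.ext h⟩
    have h2 := res_ne O (cmp Ω P C.X) (hctr P).1
    have h3 := (hctr P).2
    rw [h1, ← not_iff_not]
    exact h2.trans h3.symm
  have hB : (n : Cardinal) ≤ Algebra.trdeg ℂ E' := by
    rw [← hK]
    exact trdeg_le_of_rel x y hxtop fun P hP => (hrel P).1 hP
  have hC := trdeg_lt O hc n hΩ hvert (inst := iΛ) rfl
  have hD : Algebra.trdeg (Lam O Ω) E' ≤ 1 :=
    trdeg_le_one O (fun j => (⟨C.X j, hXO j⟩ : O)) (FF.IsFF.trdeg (k := Ω) (K := C.E)) E' rfl y hy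
  have hf1 : FaithfulSMul (Lam O Ω) E' :=
    (faithfulSMul_iff_algebraMap_injective _ _).2 (algebraMap (Lam O Ω) E').injective
  have hf2 : FaithfulSMul ℂ (Lam O Ω) :=
    (faithfulSMul_iff_algebraMap_injective _ _).2 (algebraMap ℂ (Lam O Ω)).injective
  have hsum : Algebra.trdeg ℂ (Lam O Ω) + Algebra.trdeg (Lam O Ω) E' = Algebra.trdeg ℂ E' :=
    trdeg_add_eq ℂ (Lam O Ω)
  obtain ⟨r1, r2⟩ := card_arith hsum hB hC hD
  have iFF : FF.IsFF (Lam O Ω) E' :=
    ⟨IntermediateField.essFiniteType_iff.2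
      (IntermediateField.fg_adjoin_of_finite (Set.finite_range xb)), r2⟩
  exact ⟨Lam O Ω, E', inferInstance, inferInstance, inferInstance, iΛ, iE, iT, iAC, iFF,
    SS O E', ph O E', hXS, spz O E', r1, adjoin_top xb E' rfl y hy, hrel⟩

end Pool.Agent.N946.HN
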