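import Mathlib

/-! Project HN, part SPX: residue fields of valuation rings, relative to a subfield. -/

set_option autoImplicit false
set_option linter.unusedSectionVars false

open Cardinal

namespace Pool.Agent.N946.HN

section

variable {Ω E : Type} [Field Ω] [Field E] [Algebra Ω E] (O : ValuationSubring E)

/-- the residue field -/
abbrev kk : Type := IsLocalRing.ResidueField O

/-- the valuation ring of the base field -/
abbrev OO (Ω : Type) [Field Ω] [Algebra Ω E] : ValuationSubring Ω := O.comap (algebraMap Ω E)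

theorem isUnit_iff (a : E) (h : a ∈ O) : IsUnit (⟨a, h⟩ : O) ↔ a ≠ 0 ∧ a⁻¹ ∈ O := by
  constructor
  · intro hu
    obtain ⟨b, hb⟩ := hu.exists_right_inv
    have h1 : a * (b : E) = 1 := congrArg Subtype.val hb
    have h2 : a ≠ 0 := left_ne_zero_of_mul_eq_one h1
    exact ⟨h2, by rw [← eq_inv_of_mul_eq_one_right h1]; exact b.2⟩
  · rintro ⟨h1, h2⟩
    exact IsUnit.of_mul_eq_one (⟨a⁻¹, h2⟩ : O) (Subtype.ext (mul_inv_cancel₀ h1))

theorem res_ne (a : E) (h : a ∈ O) :
    IsLocalRing.residue O ⟨a, h⟩ ≠ 0 ↔ a ≠ 0 ∧ a⁻¹ ∈ O := by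
  rw [IsLocalRing.residue_ne_zero_iff_isUnit, isUnit_iff]

/-- the map from the valuation ring of the base -/
def jO : OO O Ω →+* O where
  toFun ω := ⟨algebraMap Ω E ω.1, ω.2⟩
  map_one' := Subtype.ext (map_one _)
  map_zero' := Subtype.ext (map_zero _)
  map_add' _ _ := Subtype.ext (map_add _ _ _)
  map_mul' _ _ := Subtype.ext (map_mul _ _ _)

/-- its composition with the residue map -/
noncomputable def rr : OO O Ω →+* kk O := (IsLocalRing.residue O).comp (jO O)

/-- the residue field of the base -/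
noncomputable def Lam (Ω : Type) [Field Ω] [Algebra Ω E] : Subfield (kk O) where
  toSubring := (rr O (Ω := Ω)).range
  inv_mem' := by
    rintro _ ⟨ω, rfl⟩
    by_cases h0 : rr O ω = 0
    · rw [h0, inv_zero]
      exact Subring.zero_mem _
    · have h1 := (res_ne O (algebraMap Ω E ω.1) ω.2).1 h0
      have h2 : (ω.1)⁻¹ ∈ OO O Ω := by
        show algebraMap Ω E (ω.1)⁻¹ ∈ O
        rw [map_inv₀]
        exact h1.2
      have h3 : (ω.1 : Ω) ≠ 0 := by
        intro h
        apply h1.1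
        rw [h, map_zero]
      refine ⟨⟨_, h2⟩, ?_⟩
      rw [eq_comm, inv_eq_iff_eq_inv]
      refine eq_inv_of_mul_eq_one_left ?_
      rw [← map_mul]
      have : ω * (⟨(ω.1)⁻¹, h2⟩ : OO O Ω) = 1 := Subtype.ext (mul_inv_cancel₀ h3)
      rw [this, map_one]

theorem mem_Lam (x : kk O) : x ∈ Lam O Ω ↔ ∃ ω : OO O Ω, rr O ω = x := Iff.rfl

/-- the residue map of the base -/
noncomputable def pi : OO O Ω →+* Lam O Ω := (rr O).codRestrict (Lam O Ω) fun ω => ⟨ω, rfl⟩

theorem pi_surj : Function.Surjective (pi O (Ω := Ω)) := by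
  rintro ⟨x, ω, hω⟩
  exact ⟨ω, Subtype.ext hω⟩

theorem pi_val (ω : OO O Ω) : ((pi O ω : Lam O Ω) : kk O) = rr O ω := rfl

theorem pi_ne {ω : OO O Ω} (h : pi O ω ≠ 0) : (ω.1)⁻¹ ∈ OO O Ω ∧ (ω.1 : Ω) ≠ 0 := by
  have h0 : rr O ω ≠ 0 := fun h1 => h (Subtype.ext h1)
  have h1 := (res_ne O (algebraMap Ω E ω.1) ω.2).1 h0
  constructor
  · show algebraMap Ω E (ω.1)⁻¹ ∈ O
    rw [map_inv₀]
    exact h1.2
  · intro h
    apply h1.1
    rw [h, map_zero]

/-- the elements which are integral over the valuation ring -/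
theorem int_mem {a : Ω} (q : Polynomial (OO O Ω)) (hq : q.Monic)
    (h : q.eval₂ (OO O Ω).subtype a = 0) : a ∈ OO O Ω := by
  have h1 : IsIntegral (OO O Ω) a := ⟨q, hq, h⟩
  obtain ⟨y, hy⟩ := IsIntegrallyClosed.isIntegral_iff.1 h1
  rw [← hy]
  exact y.2

theorem algClosed [IsAlgClosed Ω] : IsAlgClosed (Lam O Ω) := by
  refine IsAlgClosed.of_exists_root _ fun p hp hirr => ?_
  have hl : p ∈ Polynomial.lifts (pi O (Ω := Ω)) := by
    obtain ⟨q, hq⟩ := Polynomial.map_surjective _ (pi_surj O (Ω := Ω)) p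
    exact ⟨q, hq⟩
  obtain ⟨q, hq, hdeg, hm⟩ := Polynomial.lifts_and_degree_eq_and_monic hl hp
  have hpd : p.degree ≠ 0 := (Polynomial.degree_pos_of_irreducible hirr).ne'
  have hinj : Function.Injective (OO O Ω).subtype := Subtype.val_injective
  obtain ⟨r, hr⟩ := IsAlgClosed.exists_root (q.map (OO O Ω).subtype) (by
    rw [Polynomial.degree_map_eq_of_injective hinj, hdeg]
    exact hpd)
  have hr' : q.eval₂ (OO O Ω).subtype r = 0 := by
    rw [← Polynomial.eval_map]
    exact hr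
  have hrO : r ∈ OO O Ω := int_mem O q hm hr'
  refine ⟨pi O ⟨r, hrO⟩, ?_⟩
  rw [← hq, Polynomial.eval_map, Polynomial.eval₂_hom]
  have h1 : q.eval (⟨r, hrO⟩ : OO O Ω) = 0 := by
    apply hinj
    rw [map_zero, ← Polynomial.eval₂_hom]
    exact hr'
  rw [h1, map_zero]

end

section base

variable {F Ω E : Type} [Field F] [Field Ω] [Field E] [Algebra F Ω] [Algebra Ω E]
  (O : ValuationSubring E)

/-- the constants -/
def cO (hc : ∀ z : F, algebraMap Ω E (algebraMap F Ω z) ∈ O) : F →+* OO O Ω :=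
  (algebraMap F Ω).codRestrict (OO O Ω) hc

theorem trdeg_lt (hc : ∀ z : F, algebraMap Ω E (algebraMap F Ω z) ∈ O) (n : ℕ)
    (hn : Algebra.trdeg F Ω = n) (hO : ∃ a : Ω, algebraMap Ω E a ∉ O)
    [inst : Algebra F (Lam O Ω)] (hinst : algebraMap F (Lam O Ω) = (pi O).comp (cO O hc)) :
    ¬ (n : Cardinal) ≤ Algebra.trdeg F (Lam O Ω) := by
  intro hle
  obtain ⟨ι, w, hw⟩ := exists_isTranscendenceBasis' F (Lam O Ω)
  rw [← hw.cardinalMk_eq_trdeg, ← mk_fin, Cardinal.le_def] at hle
  obtain ⟨e⟩ := hle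
  have hy : AlgebraicIndependent F (fun i : Fin n => w (e i)) := hw.1.comp e e.injective
  choose Y hY using fun i : Fin n => pi_surj O (Ω := Ω) (w (e i))
  -- evaluation in the valuation ring
  let ev : MvPolynomial (Fin n) F →+* OO O Ω := MvPolynomial.eval₂Hom (cO O hc) Y
  have ev1 : ∀ P, pi O (ev P) = MvPolynomial.aeval (fun i : Fin n => w (e i)) P := by
    intro P
    have : (pi O).comp ev = (MvPolynomial.aeval (R := F) (fun i : Fin n => w (e i))).toRingHom := by
      refine MvPolynomial.ringHom_ext (fun z => ?_) (fun i => ?_)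
      · simp only [ev, RingHom.comp_apply, MvPolynomial.eval₂Hom_C, AlgHom.toRingHom_eq_coe,
          RingHom.coe_coe, MvPolynomial.algHom_C, hinst]
      · simp only [ev, RingHom.comp_apply, MvPolynomial.eval₂Hom_X', AlgHom.toRingHom_eq_coe,
          RingHom.coe_coe, MvPolynomial.aeval_X, hY]
    exact congrFun (congrArg DFunLike.coe this) P
  have ev2 : ∀ P, ((ev P : OO O Ω) : Ω) = MvPolynomial.aeval (fun i : Fin n => ((Y i : OO O Ω) : Ω)) P := by
    intro P
    have : ((OO O Ω).subtype).comp ev =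
        (MvPolynomial.aeval (R := F) (fun i : Fin n => ((Y i : OO O Ω) : Ω))).toRingHom := by
      refine MvPolynomial.ringHom_ext (fun z => ?_) (fun i => ?_)
      · simp only [ev, RingHom.comp_apply, MvPolynomial.eval₂Hom_C, AlgHom.toRingHom_eq_coe,
          RingHom.coe_coe, MvPolynomial.algHom_C]
        rfl
      · simp only [ev, RingHom.comp_apply, MvPolynomial.eval₂Hom_X', AlgHom.toRingHom_eq_coe,
          RingHom.coe_coe, MvPolynomial.aeval_X]
        rfl
    exact congrFun (congrArg DFunLike.coe this) P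
  have hne : ∀ P, P ≠ 0 → pi O (ev P) ≠ 0 := by
    intro P hP h0
    rw [ev1] at h0
    exact hP ((injective_iff_map_eq_zero _).1 hy P h0)
  have hYi : AlgebraicIndependent F (fun i : Fin n => ((Y i : OO O Ω) : Ω)) := by
    refine (injective_iff_map_eq_zero _).2 fun P hP => ?_
    by_contra hP0
    exact (pi_ne O (hne P hP0)).2 ((ev2 P).trans hP)
  have hb : IsTranscendenceBasis F (fun i : Fin n => ((Y i : OO O Ω) : Ω)) :=
    hYi.isTranscendenceBasis_of_trdeg_le_of_finite (by rw [hn, mk_fin])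
  have halg := hb.isAlgebraic_field
  obtain ⟨a, ha⟩ := hO
  apply ha
  show a ∈ OO O Ω
  have hsub : ∀ b ∈ IntermediateField.adjoin F (Set.range fun i : Fin n => ((Y i : OO O Ω) : Ω)),
      b ∈ OO O Ω := by
    intro b hb'
    obtain ⟨r, s, rfl⟩ := (IntermediateField.mem_adjoin_range_iff F _ b).1 hb'
    rw [div_eq_mul_inv]
    refine (OO O Ω).mul_mem _ _ ?_ ?_
    · rw [← ev2]
      exact (ev r).2
    · by_cases hs : s = 0
      · rw [hs, map_zero, inv_zero]
        exact (OO O Ω).zero_mem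
      · rw [← ev2]
        exact (pi_ne O (hne s hs)).1
  obtain ⟨p, hp, hpa⟩ := (halg.isAlgebraic a).isIntegral
  let ii : (IntermediateField.adjoin F (Set.range fun i : Fin n => ((Y i : OO O Ω) : Ω))) →+*
      OO O Ω := (algebraMap _ Ω).codRestrict (OO O Ω) fun b => hsub _ b.2
  refine int_mem O (p.map ii) (hp.map _) ?_
  rw [Polynomial.eval₂_map]
  exact hpa

end base

end Pool.Agent.N946.HN
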